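import Pool.Agent.KR87U.Fix

set_option autoImplicit false
set_option linter.unusedSectionVars false

/-!
# KR87U/Classes: classes of partial orders under a group of permutations (Burnside)
-/

namespace Pool.KR87

open Finset

/-- Isomorphism of partial orders on `V` by permutations from the group `G`. -/
def isoG {V : Type} (G : Subgroup (Equiv.Perm V)) : Setoid (PartialOrder V) where
  r P Q := ∃ σ ∈ G, ∀ x y, P.le x y ↔ Q.le (σ x) (σ y)
  iseqv := {
    refl := fun P => ⟨1, G.one_mem, fun x y => Iff.rfl⟩
    symm := by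
      rintro P Q ⟨σ, hσ, h⟩
      refine ⟨σ⁻¹, G.inv_mem hσ, fun x y => ?_⟩
      rw [h]
      simp
    trans := by
      rintro P Q R ⟨σ, hσ, h⟩ ⟨τ, hτ, h'⟩
      exact ⟨τ * σ, G.mul_mem hτ hσ, fun x y => (h x y).trans (h' _ _)⟩ }

/-- the strict order of a partial order -/
def soOf {V : Type} (P : PartialOrder V) : SO V where
  lt := P.lt
  irr x := @lt_irrefl V P.toPreorder x
  tr x y z h1 h2 := @lt_trans V P.toPreorder x y z h1 h2

/-- the partial order of a strict order -/
@[reducible] def poOf {V : Type} (P : SO V) : PartialOrder V where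
  le x y := P.lt x y ∨ x = y
  lt x y := P.lt x y
  le_refl x := Or.inr rfl
  le_trans x y z := by
    rintro (h1 | rfl) (h2 | rfl)
    · exact Or.inl (P.tr _ _ _ h1 h2)
    · exact Or.inl h1
    · exact Or.inl h2
    · exact Or.inr rfl
  lt_iff_le_not_ge x y := by
    constructor
    · intro h
      refine ⟨Or.inl h, ?_⟩
      rintro (h' | rfl)
      · exact P.asymm h h'
      · exact P.irr _ h
    · rintro ⟨h1 | rfl, h2⟩
      · exact h1
      · exact absurd (Or.inr rfl) h2
  le_antisymm x y := by
    rintro (h1 | rfl) (h2 | h2)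
    · exact absurd h2 (P.asymm h1)
    · exact h2.symm
    · rfl
    · rfl

theorem le_iff_soOf {V : Type} (P : PartialOrder V) (x y : V) :
    P.le x y ↔ ((soOf P).lt x y ∨ x = y) := @le_iff_lt_or_eq V P x y

theorem soOf_poOf {V : Type} (P : SO V) : soOf (poOf P) = P := rfl

/-- the action of the permutations on the strict orders -/
instance actSO (V : Type) : MulAction (Equiv.Perm V) (SO V) where
  smul σ P := SO.congr σ P
  one_smul _ := rfl
  mul_smul _ _ _ := rfl

theorem smul_lt {V : Type} (σ : Equiv.Perm V) (P : SO V) (x y : V) :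
    (σ • P).lt x y ↔ P.lt (σ.symm x) (σ.symm y) := Iff.rfl

theorem inv_of_smul_eq {V : Type} {σ : Equiv.Perm V} {P : SO V} (h : σ • P = P) : Inv σ P := by
  intro x y
  have h1 : (σ • P).lt (σ x) (σ y) ↔ P.lt (σ x) (σ y) := by rw [h]
  rw [← h1, smul_lt]
  simp

theorem iso_of_smul {V : Type} (G : Subgroup (Equiv.Perm V)) (σ : Equiv.Perm V) (hσ : σ ∈ G)
    (P Q : PartialOrder V) (h : σ • soOf P = soOf Q) : (isoG G).r P Q := by
  refine ⟨σ, hσ, fun x y => ?_⟩
  refine (le_iff_soOf P x y).trans (Iff.trans ?_ (le_iff_soOf Q (σ x) (σ y)).symm)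
  rw [← h, smul_lt]
  simp

theorem smul_of_iso {V : Type} (G : Subgroup (Equiv.Perm V)) (P Q : PartialOrder V)
    (h : (isoG G).r P Q) : ∃ σ ∈ G, σ • soOf P = soOf Q := by
  obtain ⟨σ, hσ, h⟩ := h
  refine ⟨σ, hσ, ?_⟩
  apply SO.ext
  funext x y
  apply propext
  rw [smul_lt]
  have h1 := h (σ.symm x) (σ.symm y)
  have h2 := h (σ.symm y) (σ.symm x)
  simp only [Equiv.apply_symm_apply] at h1 h2
  show P.lt _ _ ↔ Q.lt _ _
  have e1 := @lt_iff_le_not_ge V P.toPreorder (σ.symm x) (σ.symm y)
  have e2 := @lt_iff_le_not_ge V Q.toPreorder x y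
  exact e1.trans ((and_congr h1 (not_congr h2)).trans e2.symm)

section

variable {V : Type} [Fintype V] [DecidableEq V]

theorem pn_le_classes (G : Subgroup (Equiv.Perm V)) : pn (Fintype.card V) ≤
    Nat.card (Quotient (isoG G)) * Nat.card G := by
  classical
  have : Finite (PartialOrder V) :=
    Finite.of_injective (fun P : PartialOrder V => P.le) (fun P Q h => by
      apply PartialOrder.ext
      intro x y
      exact iff_of_eq (congrFun (congrFun h x) y))
  have : Fintype (Quotient (MulAction.orbitRel G (SO V))) := Fintype.ofFinite _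
  have : Fintype G := Fintype.ofFinite _
  have : ∀ σ : G, Fintype (MulAction.fixedBy (SO V) σ) :=
    fun _ => Fintype.ofFinite _
  have hB := MulAction.sum_card_fixedBy_eq_card_orbits_mul_card_group G (SO V)
  have h1 : pn (Fintype.card V) ≤
      ∑ σ : G, Fintype.card (MulAction.fixedBy (SO V) σ) := by
    have h2 : Fintype.card (MulAction.fixedBy (SO V) (1 : G)) =
        pn (Fintype.card V) := by
      rw [← card_SO V]
      apply Fintype.card_congr
      exact (Equiv.subtypeUnivEquiv (fun P => (one_smul G P : _)))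
    rw [← h2]
    exact single_le_sum (f := fun σ : G => Fintype.card (MulAction.fixedBy (SO V) σ))
      (fun _ _ => Nat.zero_le _) (mem_univ (1 : G))
  refine h1.trans ?_
  rw [hB, Nat.card_eq_fintype_card (α := G)]
  apply Nat.mul_le_mul_right
  rw [← Nat.card_eq_fintype_card]
  let g : Quotient (isoG G) → Quotient (MulAction.orbitRel G (SO V)) :=
    Quotient.map soOf (fun P Q h => by
      obtain ⟨σ, hσ, h⟩ := smul_of_iso G P Q h
      exact (MulAction.orbitRel G (SO V)).symm ⟨⟨σ, hσ⟩, h⟩)
  apply Nat.card_le_card_of_surjective g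
  intro q
  induction q using Quotient.inductionOn with
  | _ P =>
    exact ⟨Quotient.mk _ (poOf P), rfl⟩

theorem bad_classes_le (G : Subgroup (Equiv.Perm V)) (B : SO V → Prop)
    (hB : ∀ (σ : Equiv.Perm V) P, B P → B (σ • P)) :
    Nat.card {q : Quotient (isoG G) // ∃ P : PartialOrder V,
        Quotient.mk (isoG G) P = q ∧ B (soOf P)} * Nat.card G ≤
      cnt B + ∑ σ ∈ (univ : Finset (Equiv.Perm V)).erase 1, cnt (Inv σ) := by
  classical
  let p : SubMulAction G (SO V) :=
    { carrier := {P | B P}
      smul_mem' := fun σ P hP => hB σ P hP }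
  have : Finite p := Subtype.finite
  have : Fintype (Quotient (MulAction.orbitRel G p)) := Fintype.ofFinite _
  have : Fintype G := Fintype.ofFinite _
  have : ∀ σ : G, Fintype (MulAction.fixedBy p σ) := fun _ => Fintype.ofFinite _
  have hBu := MulAction.sum_card_fixedBy_eq_card_orbits_mul_card_group G p
  have h1 : Nat.card {q : Quotient (isoG G) // ∃ P : PartialOrder V,
        Quotient.mk (isoG G) P = q ∧ B (soOf P)} ≤
      Nat.card (Quotient (MulAction.orbitRel G p)) := by
    let g : Quotient (MulAction.orbitRel G p) → {q : Quotient (isoG G) //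
        ∃ P : PartialOrder V, Quotient.mk (isoG G) P = q ∧ B (soOf P)} :=
      Quotient.lift (fun P => ⟨Quotient.mk (isoG G) (poOf P.1), poOf P.1, rfl, P.2⟩)
        (fun P Q h => by
          obtain ⟨σ, hσ⟩ := h
          apply Subtype.ext
          apply Quotient.sound
          apply (isoG G).symm
          apply iso_of_smul G σ.1 σ.2
          exact congrArg Subtype.val hσ)
    apply Nat.card_le_card_of_surjective g
    rintro ⟨q, P, hPq, hP⟩
    subst hPq
    refine ⟨Quotient.mk _ ⟨soOf P, hP⟩, ?_⟩
    apply Subtype.ext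
    apply Quotient.sound
    refine ⟨1, G.one_mem, fun x y => ?_⟩
    exact (le_iff_soOf P x y).symm
  have h2 : ∀ σ : G, Fintype.card (MulAction.fixedBy p σ) ≤
      (univ.filter (fun P : SO V => B P ∧ Inv σ.1 P)).card := by
    intro σ
    rw [← card_univ]
    refine card_le_card_of_injOn (fun P => P.1.1) ?_ ?_
    · intro P _
      have h3 : σ • P.1 = P.1 := P.2
      have h4 : σ.1 • P.1.1 = P.1.1 := congrArg Subtype.val h3
      simp only [coe_filter, mem_univ, true_and, Set.mem_ofPred_eq]
      exact ⟨P.1.2, inv_of_smul_eq h4⟩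
    · intro P _ Q _ h
      exact Subtype.ext (Subtype.ext h)
  have h5 : ∑ σ : G, Fintype.card (MulAction.fixedBy p σ) ≤
      cnt B + ∑ σ ∈ (univ : Finset (Equiv.Perm V)).erase 1, cnt (Inv σ) := by
    have h6 : ∑ σ : G, Fintype.card (MulAction.fixedBy p σ) ≤
        ∑ σ : Equiv.Perm V, (univ.filter (fun P : SO V => B P ∧ Inv σ P)).card := by
      refine (sum_le_sum fun σ _ => h2 σ).trans ?_
      have h7 := sum_map (univ : Finset G) ⟨fun σ => σ.1, Subtype.val_injective⟩
        (fun σ : Equiv.Perm V => (univ.filter (fun P : SO V => B P ∧ Inv σ P)).card)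
      exact h7.symm.le.trans (sum_le_sum_of_subset (subset_univ _))
    refine h6.trans ?_
    rw [← add_sum_erase univ _ (mem_univ (1 : Equiv.Perm V))]
    apply add_le_add
    · unfold cnt
      apply card_le_card
      intro P hP
      simp only [mem_filter, mem_univ, true_and] at hP ⊢
      exact hP.1
    · apply sum_le_sum
      intro σ _
      unfold cnt
      apply card_le_card
      intro P hP
      simp only [mem_filter, mem_univ, true_and] at hP ⊢
      exact hP.2
  calc _ ≤ Nat.card (Quotient (MulAction.orbitRel G p)) * Nat.card G :=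
        Nat.mul_le_mul_right _ h1
    _ = ∑ σ : G, Fintype.card (MulAction.fixedBy p σ) := by
        rw [hBu, Nat.card_eq_fintype_card, Nat.card_eq_fintype_card]
    _ ≤ _ := h5

end

end Pool.KR87
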