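import Pool.Agent.KR87U.Perm

set_option autoImplicit false
set_option linter.unusedSectionVars false

/-!
# KR87U/NumU: the number of pairs (nontrivial permutation, invariant order) is small
-/

namespace Pool.KR87

open Finset

theorem poly_le_two_rpow (k : ℕ) (C c : ℝ) (hc : 0 < c) : ∃ N : ℕ, ∀ n : ℕ, n ≥ N →
    C * ((n : ℝ) + 1) ^ k ≤ (2 : ℝ) ^ (c * (n : ℝ)) := by
  have hr : (1 : ℝ) < (2 : ℝ) ^ c := Real.one_lt_rpow (by norm_num) hc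
  have h1 := tendsto_pow_const_div_const_pow_of_one_lt k hr
  have h2 := h1.const_mul (|C| * 2 ^ k)
  rw [mul_zero] at h2
  have h3 := h2.eventually (gt_mem_nhds (show (0 : ℝ) < 1 by norm_num))
  obtain ⟨N, hN⟩ := Filter.eventually_atTop.1 h3
  refine ⟨max N 1, fun n hn => ?_⟩
  have hn1 : 1 ≤ n := le_trans (le_max_right _ _) hn
  have h4 := hN n (le_trans (le_max_left _ _) hn)
  have hpos : (0 : ℝ) < ((2 : ℝ) ^ c) ^ n := by positivity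
  have h5 : |C| * 2 ^ k * (n : ℝ) ^ k < ((2 : ℝ) ^ c) ^ n := by
    have := (mul_lt_mul_of_pos_right h4 hpos)
    rw [one_mul] at this
    calc |C| * 2 ^ k * (n : ℝ) ^ k
        = |C| * 2 ^ k * ((n : ℝ) ^ k / ((2 : ℝ) ^ c) ^ n) * ((2 : ℝ) ^ c) ^ n := by
          field_simp
      _ < _ := this
  have h6 : ((2 : ℝ) ^ c) ^ n = (2 : ℝ) ^ (c * (n : ℝ)) := by
    rw [← Real.rpow_natCast, ← Real.rpow_mul (by norm_num)]
  have hn1' : (1 : ℝ) ≤ n := by exact_mod_cast hn1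
  have h7 : ((n : ℝ) + 1) ^ k ≤ 2 ^ k * (n : ℝ) ^ k := by
    rw [← mul_pow]
    exact pow_le_pow_left₀ (by positivity) (by linarith) k
  calc C * ((n : ℝ) + 1) ^ k ≤ |C| * ((n : ℝ) + 1) ^ k :=
        mul_le_mul_of_nonneg_right (le_abs_self C) (by positivity)
    _ ≤ |C| * (2 ^ k * (n : ℝ) ^ k) := mul_le_mul_of_nonneg_left h7 (abs_nonneg C)
    _ = |C| * 2 ^ k * (n : ℝ) ^ k := by ring
    _ ≤ _ := (h5.trans_eq h6).le

theorem three_pow_le (y : ℝ) (hy : 0 ≤ y) : (3 : ℝ) ^ y ≤ (2 : ℝ) ^ (8 / 5 * y) := by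
  have h : (3 : ℝ) ≤ (2 : ℝ) ^ (8 / 5 : ℝ) := by
    have h1 : ((2 : ℝ) ^ (8 / 5 : ℝ)) ^ (5 : ℕ) = 256 := by
      rw [← Real.rpow_natCast, ← Real.rpow_mul (by norm_num)]
      norm_num
    have h2 : (3 : ℝ) ^ (5 : ℕ) ≤ ((2 : ℝ) ^ (8 / 5 : ℝ)) ^ (5 : ℕ) := by rw [h1]; norm_num
    exact le_of_pow_le_pow_left₀ (by norm_num) (by positivity) h2
  calc (3 : ℝ) ^ y ≤ ((2 : ℝ) ^ (8 / 5 : ℝ)) ^ y :=
        Real.rpow_le_rpow (by norm_num) h hy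
    _ = _ := by rw [← Real.rpow_mul (by norm_num)]

theorem sum_inv_small (C : ℝ) (hC : 0 < C)
    (hU : ∀ n : ℕ, (pn n : ℝ) ≤ C * (2 : ℝ) ^ ((n : ℝ) ^ 2 / 4 + 3 * n / 2))
    (hL : ∃ N : ℕ, ∀ n ≥ N,
      (2 : ℝ) ^ ((n : ℝ) ^ 2 / 4 + 3 * n / 2) ≤ 8 * ((n : ℝ) + 1) ^ 2 * pn n) :
    ∃ N : ℕ, ∀ n : ℕ, n ≥ N →
      ((∑ σ ∈ (univ : Finset (Equiv.Perm (Fin n))).erase 1, cnt (Inv σ) : ℕ) : ℝ) ≤
        (2 : ℝ) ^ (-(1 / 5) * (n : ℝ)) * pn n := by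
  obtain ⟨N1, hN1⟩ := hL
  obtain ⟨N2, hN2⟩ := poly_le_two_rpow 1 1 (1 / 400) (by norm_num)
  obtain ⟨N3, hN3⟩ := poly_le_two_rpow 3 (16 * C) (1 / 20) (by norm_num)
  refine ⟨max (max N1 N2) (max N3 20), fun n hn => ?_⟩
  have e1 : N1 ≤ n := by omega
  have e2 : N2 ≤ n := by omega
  have e3 : N3 ≤ n := by omega
  have e4 : 20 ≤ n := by omega
  have hn' : (20 : ℝ) ≤ n := by exact_mod_cast e4
  haveI : Nonempty (Fin n) := ⟨⟨0, by omega⟩⟩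
  have hsum := sum_inv_le (V := Fin n) (n / 10) (by omega)
  rw [Fintype.card_fin] at hsum
  have hnle : (n : ℝ) ≤ (2 : ℝ) ^ (1 / 400 * (n : ℝ)) := by
    have := hN2 n e2
    rw [pow_one, one_mul] at this
    linarith
  -- each term
  have hterm : ∀ x ∈ Icc 1 (n / 10), (((n ^ (6 * x) + (if x = n / 10 then n ^ n else 0)) *
      (3 ^ (x * x) * pn (n - x)) : ℕ) : ℝ) ≤
      2 * C * (2 : ℝ) ^ ((n : ℝ) ^ 2 / 4 + 3 * n / 2 - 1 / 4 * n) := by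
    intro x hx
    rw [mem_Icc] at hx
    have hx1 : (1 : ℝ) ≤ x := by exact_mod_cast hx.1
    have hx2 : (x : ℝ) ≤ n / 10 := by
      have : x * 10 ≤ n := by omega
      have : ((x * 10 : ℕ) : ℝ) ≤ n := by exact_mod_cast this
      push_cast at this
      linarith
    have hxn : x ≤ n := by omega
    have hnx : (0 : ℝ) ≤ (n : ℝ) * x := by positivity
    have w1 : ((n ^ (6 * x) : ℕ) : ℝ) ≤ (2 : ℝ) ^ (1 / 20 * ((n : ℝ) * x)) := by
      push_cast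
      calc (n : ℝ) ^ (6 * x) ≤ ((2 : ℝ) ^ (1 / 400 * (n : ℝ))) ^ (6 * x) :=
            pow_le_pow_left₀ (by positivity) hnle _
        _ = (2 : ℝ) ^ (6 / 400 * ((n : ℝ) * x)) := by
            rw [← Real.rpow_natCast, ← Real.rpow_mul (by norm_num)]
            congr 1
            push_cast
            ring
        _ ≤ _ := Real.rpow_le_rpow_of_exponent_le (by norm_num) (by nlinarith)
    have w2 : (((if x = n / 10 then n ^ n else 0) : ℕ) : ℝ) ≤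
        (2 : ℝ) ^ (1 / 20 * ((n : ℝ) * x)) := by
      by_cases hxb : x = n / 10
      · rw [if_pos hxb]
        have hx3 : (n : ℝ) / 20 ≤ x := by
          have : n ≤ x * 20 := by omega
          have : (n : ℝ) ≤ ((x * 20 : ℕ) : ℝ) := by exact_mod_cast this
          push_cast at this
          linarith
        push_cast
        calc (n : ℝ) ^ n ≤ ((2 : ℝ) ^ (1 / 400 * (n : ℝ))) ^ n :=
              pow_le_pow_left₀ (by positivity) hnle _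
          _ = (2 : ℝ) ^ (1 / 400 * ((n : ℝ) * n)) := by
              rw [← Real.rpow_natCast, ← Real.rpow_mul (by norm_num)]
              congr 1
              ring
          _ ≤ _ := Real.rpow_le_rpow_of_exponent_le (by norm_num) (by nlinarith)
      · rw [if_neg hxb]
        push_cast
        positivity
    have w3 : ((3 ^ (x * x) : ℕ) : ℝ) ≤ (2 : ℝ) ^ (4 / 25 * ((n : ℝ) * x)) := by
      push_cast
      have := three_pow_le ((x : ℝ) * x) (by positivity)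
      have e : (3 : ℝ) ^ (x * x) = (3 : ℝ) ^ ((x : ℝ) * x) := by
        rw [← Real.rpow_natCast]; push_cast; rfl
      rw [e]
      refine this.trans (Real.rpow_le_rpow_of_exponent_le (by norm_num) (by nlinarith))
    have w4 : (pn (n - x) : ℝ) ≤
        C * (2 : ℝ) ^ ((n : ℝ) ^ 2 / 4 + 3 * n / 2 - 19 / 40 * ((n : ℝ) * x)) := by
      refine (hU (n - x)).trans (mul_le_mul_of_nonneg_left
        (Real.rpow_le_rpow_of_exponent_le (by norm_num) ?_) hC.le)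
      rw [Nat.cast_sub hxn]
      nlinarith
    have hpn : (0 : ℝ) ≤ pn (n - x) := Nat.cast_nonneg _
    calc (((n ^ (6 * x) + (if x = n / 10 then n ^ n else 0)) *
          (3 ^ (x * x) * pn (n - x)) : ℕ) : ℝ)
        = (((n ^ (6 * x) : ℕ) : ℝ) + (((if x = n / 10 then n ^ n else 0) : ℕ) : ℝ)) *
          (((3 ^ (x * x) : ℕ) : ℝ) * pn (n - x)) := by push_cast; ring
      _ ≤ ((2 : ℝ) ^ (1 / 20 * ((n : ℝ) * x)) + (2 : ℝ) ^ (1 / 20 * ((n : ℝ) * x))) *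
          ((2 : ℝ) ^ (4 / 25 * ((n : ℝ) * x)) *
            (C * (2 : ℝ) ^ ((n : ℝ) ^ 2 / 4 + 3 * n / 2 - 19 / 40 * ((n : ℝ) * x)))) := by
          gcongr
      _ = 2 * C * ((2 : ℝ) ^ (1 / 20 * ((n : ℝ) * x)) * (2 : ℝ) ^ (4 / 25 * ((n : ℝ) * x)) *
            (2 : ℝ) ^ ((n : ℝ) ^ 2 / 4 + 3 * n / 2 - 19 / 40 * ((n : ℝ) * x))) := by ring
      _ = 2 * C * (2 : ℝ) ^ (1 / 20 * ((n : ℝ) * x) + 4 / 25 * ((n : ℝ) * x) +
            ((n : ℝ) ^ 2 / 4 + 3 * n / 2 - 19 / 40 * ((n : ℝ) * x))) := by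
          rw [← Real.rpow_add (by norm_num), ← Real.rpow_add (by norm_num)]
      _ ≤ _ := by
          refine mul_le_mul_of_nonneg_left
            (Real.rpow_le_rpow_of_exponent_le (by norm_num) ?_) (by positivity)
          nlinarith
  have h1 : ((∑ σ ∈ (univ : Finset (Equiv.Perm (Fin n))).erase 1, cnt (Inv σ) : ℕ) : ℝ) ≤
      ∑ x ∈ Icc 1 (n / 10), 2 * C * (2 : ℝ) ^ ((n : ℝ) ^ 2 / 4 + 3 * n / 2 - 1 / 4 * n) := by
    refine (Nat.cast_le.2 hsum).trans ?_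
    rw [Nat.cast_sum]
    exact sum_le_sum hterm
  rw [sum_const, nsmul_eq_mul, Nat.card_Icc] at h1
  have h2 : ((n / 10 + 1 - 1 : ℕ) : ℝ) ≤ (n : ℝ) + 1 := by
    have : n / 10 + 1 - 1 ≤ n + 1 := by omega
    exact_mod_cast this
  have hN := hN1 n e1
  have h3 := hN3 n e3
  have hp0 : (0 : ℝ) ≤ pn n := Nat.cast_nonneg _
  calc ((∑ σ ∈ (univ : Finset (Equiv.Perm (Fin n))).erase 1, cnt (Inv σ) : ℕ) : ℝ)
      ≤ ((n / 10 + 1 - 1 : ℕ) : ℝ) *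
        (2 * C * (2 : ℝ) ^ ((n : ℝ) ^ 2 / 4 + 3 * n / 2 - 1 / 4 * n)) := h1
    _ ≤ ((n : ℝ) + 1) * (2 * C * (2 : ℝ) ^ ((n : ℝ) ^ 2 / 4 + 3 * n / 2 - 1 / 4 * n)) := by
        gcongr
    _ = ((n : ℝ) + 1) * (2 * C) * ((2 : ℝ) ^ (-(1 / 4) * (n : ℝ)) *
          (2 : ℝ) ^ ((n : ℝ) ^ 2 / 4 + 3 * n / 2)) := by
        rw [← Real.rpow_add (by norm_num)]
        ring_nf
    _ ≤ ((n : ℝ) + 1) * (2 * C) * ((2 : ℝ) ^ (-(1 / 4) * (n : ℝ)) *
          (8 * ((n : ℝ) + 1) ^ 2 * pn n)) := by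
        gcongr
    _ = (16 * C * ((n : ℝ) + 1) ^ 3) * ((2 : ℝ) ^ (-(1 / 4) * (n : ℝ)) * pn n) := by ring
    _ ≤ (2 : ℝ) ^ (1 / 20 * (n : ℝ)) * ((2 : ℝ) ^ (-(1 / 4) * (n : ℝ)) * pn n) := by
        gcongr
    _ = (2 : ℝ) ^ (-(1 / 5) * (n : ℝ)) * pn n := by
        rw [← mul_assoc, ← Real.rpow_add (by norm_num)]
        ring_nf

end Pool.KR87
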