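import Pool.Agent.KR87.Upper
import Pool.Agent.KR87U.NumU
import Pool.Agent.KR87U.Classes

set_option autoImplicit false
set_option linter.unusedSectionVars false

/-!
# KR87U/Final: the share of the orders with a four-element chain, up to any group

For every group `G` of permutations of `Fin n`, the share of the classes, under isomorphisms from
`G`, of the partial orders on `Fin n` that contain a chain with four elements is at most
`C 2 ^ (- n / 40)`, with `C` independent of `n` and `G`.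
-/

namespace Pool.KR87

open Finset

/-- the order has a chain with four elements -/
def Four {V : Type} (P : SO V) : Prop := ∃ a b c d : V, P.lt a b ∧ P.lt b c ∧ P.lt c d

theorem Four.smul {V : Type} (σ : Equiv.Perm V) (P : SO V) (h : Four P) : Four (σ • P) := by
  obtain ⟨a, b, c, d, h1, h2, h3⟩ := h
  refine ⟨σ a, σ b, σ c, σ d, ?_, ?_, ?_⟩ <;> rw [smul_lt] <;> simpa

theorem cnt_Four : ∃ N : ℕ, ∀ n ≥ N,
    (cnt (fun P : SO (Fin n) => Four P) : ℝ) ≤ (2 : ℝ) ^ (-(1 / 40 : ℝ) * n) * pn n := by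
  obtain ⟨N, hN⟩ := kr_exp40
  refine ⟨N, fun n hn => le_trans ?_ (hN n hn)⟩
  have h := cnt_mono (V := Fin n) (p := fun P => Four P) (q := fun P => ¬ Good P) (by
    rintro P ⟨a, b, c, d, h1, h2, h3⟩ hG
    exact hG.noFour a b c d h1 h2 h3)
  exact_mod_cast h

/-- the sum that bounds the countings -/
theorem sum_all : ∃ C : ℝ, ∀ n : ℕ,
    (cnt (fun P : SO (Fin n) => Four P) : ℝ) +
      ((∑ σ ∈ (univ : Finset (Equiv.Perm (Fin n))).erase 1, cnt (Inv σ) : ℕ) : ℝ) ≤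
      C * (2 : ℝ) ^ (-(n : ℝ) / 40) * pn n := by
  obtain ⟨C0, hC0, hU⟩ := pn_upper
  obtain ⟨N1, h1⟩ := cnt_Four
  obtain ⟨N2, h2⟩ := sum_inv_small C0 hC0 hU pn_lower
  set N := max N1 N2 with hNdef
  have hpos : ∀ n : ℕ, (1 : ℝ) ≤ pn n := by
    intro n
    have : 1 ≤ pn n :=
      Fintype.card_pos_iff.2 ⟨⟨fun _ _ => False, fun _ => id, fun _ _ _ h => h.elim⟩⟩
    exact_mod_cast this
  let T : ℕ → ℝ := fun n => (cnt (fun P : SO (Fin n) => Four P) : ℝ) +
      ((∑ σ ∈ (univ : Finset (Equiv.Perm (Fin n))).erase 1, cnt (Inv σ) : ℕ) : ℝ)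
  have hT0 : ∀ n, 0 ≤ T n := fun n => by positivity
  refine ⟨2 + (2 : ℝ) ^ ((N : ℝ) / 40) * ∑ m ∈ range N, T m, fun n => ?_⟩
  have hS : 0 ≤ ∑ m ∈ range N, T m := sum_nonneg (fun m _ => hT0 m)
  have hp : (0 : ℝ) < (2 : ℝ) ^ (-(n : ℝ) / 40) := by positivity
  have hpn : (0 : ℝ) ≤ pn n := Nat.cast_nonneg _
  change T n ≤ _
  rcases le_or_gt N n with hn | hn
  · have e1 := h1 n (le_trans (le_max_left _ _) hn)
    have e2 := h2 n (le_trans (le_max_right _ _) hn)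
    have e4 : (2 : ℝ) ^ (-(1 / 5) * (n : ℝ)) ≤ (2 : ℝ) ^ (-(n : ℝ) / 40) := by
      apply Real.rpow_le_rpow_of_exponent_le (by norm_num)
      have : (0 : ℝ) ≤ n := Nat.cast_nonneg _
      linarith
    have e5 : (2 : ℝ) ^ (-(1 / 40 : ℝ) * n) = (2 : ℝ) ^ (-(n : ℝ) / 40) := by
      congr 1; ring
    rw [e5] at e1
    have e6 := mul_le_mul_of_nonneg_right e4 hpn
    have e8 : 0 ≤ (2 : ℝ) ^ ((N : ℝ) / 40) * (∑ m ∈ range N, T m) *
        (2 : ℝ) ^ (-(n : ℝ) / 40) * pn n := by positivity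
    calc T n ≤ (2 : ℝ) ^ (-(n : ℝ) / 40) * pn n + (2 : ℝ) ^ (-(n : ℝ) / 40) * pn n :=
          add_le_add e1 (e2.trans e6)
      _ ≤ _ := by linarith
  · have e1 : T n ≤ ∑ m ∈ range N, T m :=
      single_le_sum (f := T) (fun m _ => hT0 m) (mem_range.2 hn)
    have e2 : (1 : ℝ) ≤ (2 : ℝ) ^ ((N : ℝ) / 40) * (2 : ℝ) ^ (-(n : ℝ) / 40) := by
      rw [← Real.rpow_add (by norm_num)]
      apply Real.one_le_rpow (by norm_num)
      have : (n : ℝ) ≤ N := by exact_mod_cast hn.le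
      linarith
    have e3 := hpos n
    have e4 : (1 : ℝ) ≤ (2 : ℝ) ^ ((N : ℝ) / 40) * (2 : ℝ) ^ (-(n : ℝ) / 40) * pn n := by
      nlinarith
    have e5 := mul_le_mul_of_nonneg_left e4 hS
    have e6 : 0 ≤ 2 * (2 : ℝ) ^ (-(n : ℝ) / 40) * pn n := by positivity
    calc T n ≤ (∑ m ∈ range N, T m) * 1 := by rw [mul_one]; exact e1
      _ ≤ _ := e5
      _ ≤ _ := by linarith

/-- The exponential Kleitman-Rothschild theorem up to isomorphisms from any group of
permutations. -/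
theorem classes_Four : ∃ C : ℝ, ∀ (n : ℕ) (G : Subgroup (Equiv.Perm (Fin n))),
    (Nat.card {q : Quotient (isoG G) // ∃ P : PartialOrder (Fin n),
        Quotient.mk (isoG G) P = q ∧ ∃ a b c d : Fin n, P.lt a b ∧ P.lt b c ∧ P.lt c d} : ℝ) ≤
      C * (2 : ℝ) ^ (-(n : ℝ) / 40) * Nat.card (Quotient (isoG G)) := by
  obtain ⟨C, hC⟩ := sum_all
  refine ⟨|C|, fun n G => ?_⟩
  have h1 := bad_classes_le (V := Fin n) G (fun P => Four P) (fun σ P h => h.smul σ)
  have h2 := pn_le_classes (V := Fin n) G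
  rw [Fintype.card_fin] at h2
  have h3 := hC n
  change (Nat.card {q : Quotient (isoG G) // ∃ P : PartialOrder (Fin n),
        Quotient.mk (isoG G) P = q ∧ Four (soOf P)} : ℝ) ≤ _
  set X := Nat.card {q : Quotient (isoG G) // ∃ P : PartialOrder (Fin n),
        Quotient.mk (isoG G) P = q ∧ Four (soOf P)} with hX
  set Y := Nat.card (Quotient (isoG G)) with hY
  have hf : (0 : ℝ) < (Nat.card G : ℝ) := by exact_mod_cast Nat.card_pos
  have h1' : (X : ℝ) * Nat.card G ≤ (cnt (fun P : SO (Fin n) => Four P) : ℝ) +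
      ((∑ σ ∈ (univ : Finset (Equiv.Perm (Fin n))).erase 1, cnt (Inv σ) : ℕ) : ℝ) := by
    exact_mod_cast h1
  have h2' : (pn n : ℝ) ≤ (Y : ℝ) * Nat.card G := by exact_mod_cast h2
  have hp : (0 : ℝ) < (2 : ℝ) ^ (-(n : ℝ) / 40) := by positivity
  have h4 : (X : ℝ) * Nat.card G ≤ (|C| * (2 : ℝ) ^ (-(n : ℝ) / 40) * Y) * Nat.card G := by
    calc (X : ℝ) * Nat.card G ≤ C * (2 : ℝ) ^ (-(n : ℝ) / 40) * pn n := h1'.trans h3
      _ ≤ |C| * (2 : ℝ) ^ (-(n : ℝ) / 40) * pn n := by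
          gcongr
          exact le_abs_self C
      _ ≤ |C| * (2 : ℝ) ^ (-(n : ℝ) / 40) * ((Y : ℝ) * Nat.card G) := by gcongr
      _ = _ := by ring
  exact le_of_mul_le_mul_right h4 hf

end Pool.KR87
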