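import Pool.Agent.KR87.Base

set_option autoImplicit false
set_option linter.unusedSectionVars false

/-!
# KR87U/Fix: orders with a given automorphism

If `X` is a set of points with `X ∩ σ X = ∅` then a `σ`-invariant order is determined by the order
on the complement of `σ X` and by the relations between `X` and `σ X`.
-/

namespace Pool.KR87

open Finset

/-- `σ` is an automorphism of `P` -/
def Inv {V : Type} (σ : Equiv.Perm V) (P : SO V) : Prop := ∀ x y, P.lt (σ x) (σ y) ↔ P.lt x y

section

variable {V : Type} [Fintype V] [DecidableEq V]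

open Classical in
/-- the relations between `X` and `σ X` -/
noncomputable def code (σ : Equiv.Perm V) (X : Finset V) (P : SO V) :
    {x // x ∈ X} × {x // x ∈ X} → Fin 3 := fun p =>
  if P.lt p.1 (σ p.2) then 0 else if P.lt (σ p.2) p.1 then 1 else 2

theorem code_fst {σ : Equiv.Perm V} {X : Finset V} {P P' : SO V}
    (h : code σ X P = code σ X P') {x y : V} (hx : x ∈ X) (hy : y ∈ X) :
    P.lt x (σ y) ↔ P'.lt x (σ y) := by
  have h1 := congrFun h (⟨x, hx⟩, ⟨y, hy⟩)
  unfold code at h1
  simp only at h1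
  by_cases h2 : P.lt x (σ y) <;> by_cases h3 : P'.lt x (σ y)
  · simp [h2, h3]
  · simp only [h2, h3, if_true, if_false] at h1
    split_ifs at h1 <;> simp at h1
  · simp only [h2, h3, if_true, if_false] at h1
    split_ifs at h1 <;> simp at h1
  · simp [h2, h3]

theorem code_snd {σ : Equiv.Perm V} {X : Finset V} {P P' : SO V}
    (h : code σ X P = code σ X P') {x y : V} (hx : x ∈ X) (hy : y ∈ X) :
    P.lt (σ y) x ↔ P'.lt (σ y) x := by
  have h0 := code_fst h hx hy
  have h1 := congrFun h (⟨x, hx⟩, ⟨y, hy⟩)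
  unfold code at h1
  simp only at h1
  by_cases h2 : P.lt x (σ y)
  · have h3 := h0.1 h2
    exact iff_of_false (P.asymm h2) (P'.asymm h3)
  · have h3 : ¬ P'.lt x (σ y) := fun h4 => h2 (h0.2 h4)
    simp only [h2, h3, if_false] at h1
    by_cases h4 : P.lt (σ y) x <;> by_cases h5 : P'.lt (σ y) x
    · simp [h4, h5]
    · simp [h4, h5] at h1
    · simp [h4, h5] at h1
    · simp [h4, h5]

theorem cnt_inv_le (σ : Equiv.Perm V) (X : Finset V) (hX : ∀ x ∈ X, σ x ∉ X) :
    cnt (Inv σ) ≤ 3 ^ (X.card * X.card) * pn (Fintype.card V - X.card) := by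
  classical
  set S : Finset V := X.map σ.toEmbedding with hS
  have hmem : ∀ y, y ∈ S ↔ ∃ x ∈ X, σ x = y := by
    intro y; rw [hS, mem_map]; rfl
  have hXS : ∀ x ∈ X, x ∉ S := by
    intro x hx h
    obtain ⟨x', hx', h'⟩ := (hmem x).1 h
    exact hX x' hx' (h' ▸ hx)
  have hcard : S.card = X.card := by rw [hS, card_map]
  have hc1 : Fintype.card {x // x ∉ S} = Fintype.card V - X.card := by
    rw [← hcard, Fintype.card_subtype_compl, Fintype.card_coe]
  have key := cnt_le_of_injOn (V := V) (Inv σ) (fun P => (P.del S, code σ X P))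
    (univ : Finset (SO {x // x ∉ S} × ({x // x ∈ X} × {x // x ∈ X} → Fin 3)))
    (fun _ _ => mem_univ _) ?_
  · refine key.trans (le_of_eq ?_)
    rw [card_univ, Fintype.card_prod, card_SO, hc1, Fintype.card_fun, Fintype.card_prod,
      Fintype.card_fin, Fintype.card_coe, mul_comm]
  · intro P P' hP hP' h
    have h1 : P.del S = P'.del S := congrArg Prod.fst h
    have h2 : code σ X P = code σ X P' := congrArg Prod.snd h
    have hdel : ∀ y z, y ∉ S → z ∉ S → (P.lt y z ↔ P'.lt y z) := by
      intro y z hy hz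
      have := congrArg (fun Q => SO.lt Q ⟨y, hy⟩ ⟨z, hz⟩) h1
      exact iff_of_eq this
    -- `P.lt x w` and `P.lt w x` for `x ∈ X`, all `w`
    have hx1 : ∀ x ∈ X, ∀ w, (P.lt x w ↔ P'.lt x w) := by
      intro x hx w
      by_cases hw : w ∈ S
      · obtain ⟨x', hx', rfl⟩ := (hmem w).1 hw
        exact code_fst h2 hx hx'
      · exact hdel x w (hXS x hx) hw
    have hx2 : ∀ x ∈ X, ∀ w, (P.lt w x ↔ P'.lt w x) := by
      intro x hx w
      by_cases hw : w ∈ S
      · obtain ⟨x', hx', rfl⟩ := (hmem w).1 hw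
        exact code_snd h2 hx hx'
      · exact hdel w x hw (hXS x hx)
    apply SO.ext
    funext y z
    apply propext
    by_cases hy : y ∈ S
    · obtain ⟨x, hx, rfl⟩ := (hmem y).1 hy
      have e1 : σ (σ.symm z) = z := by simp
      rw [← e1, hP, hP']
      exact hx1 x hx _
    · by_cases hz : z ∈ S
      · obtain ⟨x, hx, rfl⟩ := (hmem z).1 hz
        have e1 : σ (σ.symm y) = y := by simp
        rw [← e1, hP, hP']
        exact hx2 x hx _
      · exact hdel y z hy hz

end

end Pool.KR87
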