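import Pool.Agent.KR87U.Fix

set_option autoImplicit false
set_option linter.unusedSectionVars false

/-!
# KR87U/Perm: counting permutations by the size of the support, and the sum over the
nontrivial permutations of the number of invariant orders
-/

namespace Pool.KR87

open Finset

section

variable {V : Type} [Fintype V] [DecidableEq V]

theorem exists_cover [Nonempty V] (s : Finset V) (k : ℕ) (h : s.card ≤ k) :
    ∃ c : Fin k → V, ∀ u ∈ s, ∃ i, c i = u := by
  classical
  refine ⟨fun i => if hi : (i : ℕ) < s.card then (s.equivFin.symm ⟨i, hi⟩ : V)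
    else Classical.arbitrary V, ?_⟩
  intro u hu
  refine ⟨⟨(s.equivFin ⟨u, hu⟩ : ℕ), lt_of_lt_of_le (s.equivFin ⟨u, hu⟩).2 h⟩, ?_⟩
  simp

/-- permutations with a small support -/
theorem card_perm_small [Nonempty V] (k : ℕ) :
    ((univ : Finset (Equiv.Perm V)).filter (fun σ => σ.support.card ≤ k)).card ≤
      Fintype.card V ^ (2 * k) := by
  classical
  have hc : ∀ σ : Equiv.Perm V, ∃ c : Fin k → V, σ.support.card ≤ k →
      ∀ u ∈ σ.support, ∃ i, c i = u := by
    intro σ
    by_cases h : σ.support.card ≤ k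
    · obtain ⟨c, hc⟩ := exists_cover σ.support k h
      exact ⟨c, fun _ => hc⟩
    · exact ⟨fun _ => Classical.arbitrary V, fun h' => absurd h' h⟩
  choose c hc using hc
  have key : ((univ : Finset (Equiv.Perm V)).filter (fun σ => σ.support.card ≤ k)).card ≤
      (univ : Finset ((Fin k → V) × (Fin k → V))).card := by
    refine card_le_card_of_injOn (fun σ => (c σ, fun i => σ (c σ i))) (fun _ _ => mem_univ _) ?_
    intro σ hσ τ hτ h
    simp only [coe_filter, mem_univ, true_and, Set.mem_ofPred_eq] at hσ hτ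
    have h1 : c σ = c τ := congrArg Prod.fst h
    have h2 : (fun i => σ (c σ i)) = fun i => τ (c τ i) := congrArg Prod.snd h
    ext u
    by_cases hu : u ∈ σ.support
    · obtain ⟨i, hi⟩ := hc σ hσ u hu
      have h3 : σ (c σ i) = τ (c τ i) := congrFun h2 i
      rw [← h1, hi] at h3
      exact h3
    · by_cases hu' : u ∈ τ.support
      · obtain ⟨i, hi⟩ := hc τ hτ u hu'
        have h3 : σ (c σ i) = τ (c τ i) := congrFun h2 i
        rw [h1, hi] at h3
        exact h3
      · rw [Equiv.Perm.notMem_support] at hu hu'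
        rw [hu, hu']
  refine key.trans (le_of_eq ?_)
  rw [card_univ, Fintype.card_prod, Fintype.card_fun, Fintype.card_fin, ← pow_add, two_mul]

/-- a set `X` with `X ∩ σ X = ∅` and at least a third of the support -/
theorem exists_indep (σ : Equiv.Perm V) :
    ∃ X : Finset V, (∀ x ∈ X, σ x ∉ X) ∧ σ.support.card ≤ 3 * X.card := by
  classical
  obtain ⟨X, hX, hmax⟩ := exists_max_image
    ((univ : Finset (Finset V)).filter (fun X => X ⊆ σ.support ∧ ∀ x ∈ X, σ x ∉ X)) card
    ⟨∅, by simp⟩
  simp only [mem_filter, mem_univ, true_and] at hX hmax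
  refine ⟨X, hX.2, ?_⟩
  have hsub : σ.support ⊆ X ∪ (X.image σ ∪ X.image σ.symm) := by
    intro y hy
    by_contra hn
    simp only [mem_union, mem_image, not_or, not_exists, not_and] at hn
    obtain ⟨h1, h2, h3⟩ := hn
    have hins : ∀ x ∈ insert y X, σ x ∉ insert y X := by
      intro x hx
      rw [mem_insert] at hx
      rcases hx with rfl | hx
      · rw [mem_insert, not_or]
        refine ⟨(Equiv.Perm.mem_support.1 hy), fun h => h3 _ h (by simp)⟩
      · rw [mem_insert, not_or]
        exact ⟨h2 x hx, hX.2 x hx⟩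
    have := hmax (insert y X) ⟨insert_subset hy hX.1, hins⟩
    rw [card_insert_of_notMem h1] at this
    omega
  have h1 := card_le_card hsub
  have h2 := card_union_le X (X.image σ ∪ X.image σ.symm)
  have h3 := card_union_le (X.image σ) (X.image σ.symm)
  have h4 := card_image_le (s := X) (f := σ)
  have h5 := card_image_le (s := X) (f := σ.symm)
  omega

theorem exists_X (σ : Equiv.Perm V) (hσ : σ ≠ 1) (b : ℕ) (hb : 1 ≤ b) :
    ∃ X : Finset V, (∀ x ∈ X, σ x ∉ X) ∧ 1 ≤ X.card ∧ X.card ≤ b ∧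
      (σ.support.card ≤ 3 * X.card ∨ X.card = b) := by
  obtain ⟨X, h1, h2⟩ := exists_indep σ
  have hpos : 1 ≤ σ.support.card := by
    rw [Nat.one_le_iff_ne_zero, Ne, card_eq_zero, Equiv.Perm.support_eq_empty_iff]
    exact hσ
  by_cases h : X.card ≤ b
  · exact ⟨X, h1, by omega, h, Or.inl h2⟩
  · obtain ⟨Y, hY, hYc⟩ := exists_subset_card_eq (show b ≤ X.card by omega)
    exact ⟨Y, fun x hx h' => h1 x (hY hx) (hY h'), by omega, hYc.le, Or.inr hYc⟩

theorem sum_inv_le [Nonempty V] (b : ℕ) (hb : 1 ≤ b) :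
    ∑ σ ∈ (univ : Finset (Equiv.Perm V)).erase 1, cnt (Inv σ) ≤
      ∑ x ∈ Icc 1 b, (Fintype.card V ^ (6 * x) +
        (if x = b then Fintype.card V ^ Fintype.card V else 0)) *
          (3 ^ (x * x) * pn (Fintype.card V - x)) := by
  classical
  have hX : ∀ σ : Equiv.Perm V, ∃ X : Finset V, σ ≠ 1 → ((∀ x ∈ X, σ x ∉ X) ∧ 1 ≤ X.card ∧
      X.card ≤ b ∧ (σ.support.card ≤ 3 * X.card ∨ X.card = b)) := by
    intro σ
    by_cases h : σ = 1
    · exact ⟨∅, fun h' => absurd h h'⟩
    · obtain ⟨X, hX⟩ := exists_X σ h b hb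
      exact ⟨X, fun _ => hX⟩
  choose X hX using hX
  have h1 : ∑ σ ∈ (univ : Finset (Equiv.Perm V)).erase 1, cnt (Inv σ) ≤
      ∑ σ ∈ (univ : Finset (Equiv.Perm V)).erase 1,
        3 ^ ((X σ).card * (X σ).card) * pn (Fintype.card V - (X σ).card) := by
    apply sum_le_sum
    intro σ hσ
    rw [mem_erase] at hσ
    exact cnt_inv_le σ (X σ) (hX σ hσ.1).1
  refine h1.trans ?_
  have hmaps : ∀ σ ∈ (univ : Finset (Equiv.Perm V)).erase 1, (X σ).card ∈ Icc 1 b := by
    intro σ hσ
    rw [mem_erase] at hσ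
    rw [mem_Icc]
    exact ⟨(hX σ hσ.1).2.1, (hX σ hσ.1).2.2.1⟩
  rw [← sum_fiberwise_of_maps_to hmaps]
  apply sum_le_sum
  intro x hx
  have h2 : ∑ σ ∈ ((univ : Finset (Equiv.Perm V)).erase 1).filter (fun σ => (X σ).card = x),
      3 ^ ((X σ).card * (X σ).card) * pn (Fintype.card V - (X σ).card) =
      (((univ : Finset (Equiv.Perm V)).erase 1).filter (fun σ => (X σ).card = x)).card *
        (3 ^ (x * x) * pn (Fintype.card V - x)) := by
    rw [sum_congr rfl (g := fun _ => 3 ^ (x * x) * pn (Fintype.card V - x)), sum_const,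
      smul_eq_mul]
    intro σ hσ
    rw [mem_filter] at hσ
    rw [hσ.2]
  rw [h2]
  apply Nat.mul_le_mul_right
  by_cases hxb : x = b
  · rw [if_pos hxb]
    refine le_trans ?_ (Nat.le_add_left _ _)
    refine (card_le_univ _).trans ?_
    rw [Fintype.card_perm]
    exact Nat.factorial_le_pow _
  · rw [if_neg hxb, add_zero]
    have h3 := card_perm_small (V := V) (3 * x)
    have e : 2 * (3 * x) = 6 * x := by ring
    rw [e] at h3
    refine (card_le_card ?_).trans h3
    intro σ hσ
    rw [mem_filter, mem_erase] at hσ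
    rw [mem_filter]
    refine ⟨mem_univ _, ?_⟩
    rcases (hX σ hσ.1.1).2.2.2 with h4 | h4
    · rwa [hσ.2] at h4
    · exact absurd (hσ.2.symm.trans h4) hxb

end

end Pool.KR87
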