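import Pool.Agent.KR87.Base

set_option autoImplicit false
set_option linter.unusedSectionVars false

/-!
# KR87U/Up: an upper bound for large `n` gives one for all `n`
-/

namespace Pool.KR87

open Finset

theorem pn_upper_of (C0 : ℝ) (N : ℕ)
    (h : ∀ n ≥ N, (pn n : ℝ) ≤ C0 * (2 : ℝ) ^ ((n : ℝ) ^ 2 / 4 + 3 * n / 2)) :
    ∃ C : ℝ, 0 < C ∧ ∀ n : ℕ, (pn n : ℝ) ≤ C * (2 : ℝ) ^ ((n : ℝ) ^ 2 / 4 + 3 * n / 2) := by
  refine ⟨|C0| + 1 + ∑ k ∈ range N, (pn k : ℝ), by positivity, fun n => ?_⟩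
  have hs : (0 : ℝ) ≤ ∑ k ∈ range N, (pn k : ℝ) := by positivity
  have hp : (0 : ℝ) < (2 : ℝ) ^ ((n : ℝ) ^ 2 / 4 + 3 * n / 2) := by positivity
  by_cases hn : N ≤ n
  · refine (h n hn).trans (mul_le_mul_of_nonneg_right ?_ hp.le)
    have := le_abs_self C0
    linarith
  · have h1 : (pn n : ℝ) ≤ ∑ k ∈ range N, (pn k : ℝ) :=
      single_le_sum (f := fun k => (pn k : ℝ)) (fun _ _ => by positivity)
        (mem_range.2 (not_le.1 hn))
    have h2 : (1 : ℝ) ≤ (2 : ℝ) ^ ((n : ℝ) ^ 2 / 4 + 3 * n / 2) :=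
      Real.one_le_rpow (by norm_num) (by positivity)
    calc (pn n : ℝ) ≤ |C0| + 1 + ∑ k ∈ range N, (pn k : ℝ) := by
          have := abs_nonneg C0
          linarith
      _ = (|C0| + 1 + ∑ k ∈ range N, (pn k : ℝ)) * 1 := by ring
      _ ≤ _ := mul_le_mul_of_nonneg_left h2 (by positivity)

end Pool.KR87
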